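import Pool.Agent.W744.BU.Stm

/-! Project BU: the graded structure of `CA U`. -/

set_option autoImplicit false

open Set Filter Topology

namespace Pool.Agent.W856.BU.GR

open Pool.Agent.W744.BU

/-- `a ↦ a ⊗ b` -/
noncomputable def tl (hT : S_TENS) {I J : Type} (b : Op J) : Op I →L[ℂ] Op (I × J) :=
  LinearMap.mkContinuous
    { toFun := fun a => tens a b
      map_add' := fun a a' => hT.2.2.2.2.1 I J a a' b
      map_smul' := fun z a => (hT.2.2.2.2.2.2.1 I J z a b).1 } ‖b‖
    (fun a => by
      rw [mul_comm]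
      exact (hT.1 I J a b).2)

theorem tl_apply (hT : S_TENS) {I J : Type} (b : Op J) (a : Op I) : tl hT b a = tens a b := rfl

theorem tens_mem (hT : S_TENS) {I J : Type} {A : StarSubalgebra ℂ (Op I)}
    {B : StarSubalgebra ℂ (Op J)} {a : Op I} {b : Op J} (ha : a ∈ A) (hb : b ∈ B) :
    tens a b ∈ spat A B :=
  StarSubalgebra.le_topologicalClosure _
    (StarAlgebra.subset_adjoin ℂ _ ⟨a, ha, b, hb, (hT.1 I J a b).1⟩)

theorem mem_CA {J K : Type} (U : K → Op J) (g : K) : U g ∈ CA U :=
  StarSubalgebra.le_topologicalClosure _ (StarAlgebra.subset_adjoin ℂ _ ⟨g, rfl⟩)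

theorem closed_CA {J K : Type} (U : K → Op J) : IsClosed (CA U : Set (Op J)) :=
  StarSubalgebra.isClosed_topologicalClosure _

theorem main (_hE : S_ENT) (hT : S_TENS) (hD : S_DOP) (hL : S_LAM) (hS : S_SPA) : S_GR := by
  intro G J _ d U hU hdU
  obtain ⟨-, D, hDa, hDn⟩ := hD G J d
  have hDc : Continuous D := (AddMonoidHomClass.isometry_of_norm D hDn).continuous
  have hDU : ∀ g, D (U g) = tens (U g) (lam g) := fun g => by rw [hDa, hdU]
  obtain ⟨-, hl1, hlm, hls, hlu, -⟩ := hL G
  have hmul := hT.2.1
  have hstar := hT.2.2.1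
  have hone := hT.2.2.2.1
  -- homogeneous elements
  let P : Op J → Prop := fun a => a ∈ CA U ∧ ∃ g : G, D a = tens a (lam g)
  have hP1 : P 1 := ⟨one_mem _, 1, by rw [map_one, hl1, hone]⟩
  have hPU : ∀ g, P (U g) := fun g => ⟨mem_CA U g, g, hDU g⟩
  have hPm : ∀ a b, P a → P b → P (a * b) := by
    rintro a b ⟨ha, g, hg⟩ ⟨hb, h, hh⟩
    exact ⟨mul_mem ha hb, g * h, by rw [map_mul, hg, hh, hlm, hmul]⟩
  have hPs : ∀ a, P a → P (star a) := by
    rintro a ⟨ha, g, hg⟩
    exact ⟨star_mem ha, g⁻¹, by rw [map_star, hg, ← hls, hstar]⟩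
  -- span of the homogeneous elements is dense
  have hdense : ∀ C : Submodule ℂ (Op J), IsClosed (C : Set (Op J)) → (∀ a, P a → a ∈ C) →
      ∀ a ∈ CA U, a ∈ C := by
    intro C hC hPC
    have h1 : ((StarAlgebra.adjoin ℂ (range U)) : Set (Op J)) ⊆ C := by
      have h2 : Subalgebra.toSubmodule (StarAlgebra.adjoin ℂ (range U)).toSubalgebra ≤ C := by
        rw [StarAlgebra.adjoin_eq_span, Submodule.span_le]
        intro a ha
        apply hPC
        induction ha using Submonoid.closure_induction with
        | mem x hx =>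
          rcases hx with ⟨g, rfl⟩ | hx
          · exact hPU g
          · obtain ⟨g, hg⟩ := hx
            have : x = star (U g) := by rw [hg, star_star]
            rw [this]
            exact hPs _ (hPU g)
        | one => exact hP1
        | mul x y _ _ hx hy => exact hPm x y hx hy
      exact h2
    intro a ha
    exact closure_minimal h1 hC ha
  refine ⟨?_, ?_, ?_, ?_⟩
  · -- `D` maps `CA U` to the tensor product
    intro a ha
    rw [← hDa]
    have hle : CA U ≤ (spat (CA U) (CA (lam : G → Op G))).comap D := by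
      apply StarSubalgebra.topologicalClosure_minimal
      · apply StarAlgebra.adjoin_le
        rintro _ ⟨g, rfl⟩
        show D (U g) ∈ spat (CA U) (CA (lam : G → Op G))
        rw [hDU]
        exact tens_mem hT (mem_CA U g) (mem_CA lam g)
      · exact (StarSubalgebra.isClosed_topologicalClosure _).preimage hDc
    exact hle ha
  · refine (hS G J (CA U)).trans ?_
    set Y : Set (Op (J × G)) := {x | ∃ a ∈ CA U, ∃ h ∈ CA (lam : G → Op G),
        x = Dop d a * tens 1 h} with hY
    have hle : (Submodule.span ℂ {x | ∃ a ∈ CA U, ∃ h : G, x = tens a (lam h)} :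
        Set (Op (J × G))) ⊆ closure (Submodule.span ℂ Y : Set (Op (J × G))) := by
      have h1 : Submodule.span ℂ {x | ∃ a ∈ CA U, ∃ h : G, x = tens a (lam h)} ≤
          (Submodule.span ℂ Y).topologicalClosure := by
        rw [Submodule.span_le]
        rintro _ ⟨a, ha, h, rfl⟩
        have h2 := hdense ((Submodule.span ℂ Y).topologicalClosure.comap
          (tl hT (I := J) (lam h) : Op J →ₗ[ℂ] Op (J × G)))
          ((Submodule.isClosed_topologicalClosure _).preimage (tl hT (I := J) (lam h)).continuous)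
          (by
            rintro b ⟨hb, g, hg⟩
            show tens b (lam h) ∈ (Submodule.span ℂ Y).topologicalClosure
            apply Submodule.le_topologicalClosure
            apply Submodule.subset_span
            refine ⟨b, hb, lam (g⁻¹ * h), mem_CA lam _, ?_⟩
            rw [← hDa, hg, ← hmul, mul_one, ← hlm, mul_inv_cancel_left]) a ha
        exact h2
      intro x hx
      exact h1 hx
    exact closure_minimal hle isClosed_closure
  · refine (hS G J (CA U)).trans (closure_mono (Submodule.span_mono ?_))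
    rintro _ ⟨a, ha, h, rfl⟩
    refine ⟨U h, mem_CA U h, star (U h) * a, mul_mem (star_mem (mem_CA U h)) ha, ?_⟩
    rw [hdU, ← hmul, mul_one, ← mul_assoc, (Unitary.mem_iff.1 (hU h)).2, one_mul]
  · refine (hS G J (CA U)).trans (closure_mono (Submodule.span_mono ?_))
    rintro _ ⟨a, ha, h, rfl⟩
    refine ⟨a * star (U h), mul_mem ha (star_mem (mem_CA U h)), U h, mem_CA U h, ?_⟩
    rw [hdU, ← hmul, one_mul, mul_assoc, (Unitary.mem_iff.1 (hU h)).1, mul_one]

end Pool.Agent.W856.BU.GR
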